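import Mathlib

set_option autoImplicit false
open CategoryTheory CategoryTheory.MonoidalCategory CategoryTheory.Limits

namespace Pool.Agent.CoreDim

/-- The field with two elements. -/
abbrev K := ZMod 2
/-- The Klein four group, written multiplicatively. -/
abbrev G := Multiplicative (ZMod 2 × ZMod 2)

/-- first generator -/
def gg : G := Multiplicative.ofAdd (1, 0)
/-- second generator -/
def hh : G := Multiplicative.ofAdd (0, 1)

lemma g_cases (s : G) : s = 1 ∨ s = gg ∨ s = hh ∨ s = gg * hh := by
  revert s; decide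

lemma gg_mul_gg : gg * gg = 1 := by decide
lemma hh_mul_hh : hh * hh = 1 := by decide
lemma hh_mul_gg : hh * gg = gg * hh := by decide

section mkRep
variable {V : Type} [AddCommGroup V] [Module K V]

lemma add_self_zero (v : V) : v + v = 0 := by
  rw [← two_smul K v]
  have : (2 : K) = 0 := by decide
  rw [this, zero_smul]

lemma neg_eq (v : V) : -v = v := by
  rw [neg_eq_iff_add_eq_zero]; exact add_self_zero v

/-- the representation of the Klein four group in characteristic two attached to two commuting
square-zero operators. -/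
def mkRep (X Y : V →ₗ[K] V) (hX : ∀ v, X (X v) = 0) (hY : ∀ v, Y (Y v) = 0)
    (hXY : ∀ v, X (Y v) = Y (X v)) :
    Representation K G V where
  toFun s := (LinearMap.id + (Multiplicative.toAdd s).1 • X) ∘ₗ
    (LinearMap.id + (Multiplicative.toAdd s).2 • Y)
  map_one' := by
    ext v; simp
  map_mul' s t := by
    ext v
    simp only [toAdd_mul, Prod.fst_add, Prod.snd_add, LinearMap.coe_comp, Function.comp_apply,
      LinearMap.add_apply, LinearMap.id_coe, id_eq, LinearMap.smul_apply, map_add, map_smul,
      Module.End.mul_apply, hX, hY, hXY, smul_zero, add_zero, add_smul, smul_add, map_zero]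
    have e : ∀ (a b : K) (w : V), a • b • w = (a * b) • w := fun a b w => (mul_smul a b w).symm
    simp only [e]
    module

lemma mkRep_gg (X Y : V →ₗ[K] V) (hX : ∀ v, X (X v) = 0) (hY : ∀ v, Y (Y v) = 0)
    (hXY : ∀ v, X (Y v) = Y (X v)) (v : V) :
    mkRep X Y hX hY hXY gg v = v + X v := by
  simp [mkRep, gg]

lemma mkRep_hh (X Y : V →ₗ[K] V) (hX : ∀ v, X (X v) = 0) (hY : ∀ v, Y (Y v) = 0)
    (hXY : ∀ v, X (Y v) = Y (X v)) (v : V) :
    mkRep X Y hX hY hXY hh v = v + Y v := by
  simp [mkRep, hh]

end mkRep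

section ops
variable {V : Type} [AddCommGroup V] [Module K V] (ρ : Representation K G V)
variable {V' : Type} [AddCommGroup V'] [Module K V'] (ρ' : Representation K G V')

/-- `x = g - 1` as an operator -/
def opX : V →ₗ[K] V := ρ gg + LinearMap.id
/-- `y = h - 1` as an operator -/
def opY : V →ₗ[K] V := ρ hh + LinearMap.id

lemma opX_apply (v : V) : opX ρ v = ρ gg v + v := rfl
lemma opY_apply (v : V) : opY ρ v = ρ hh v + v := rfl

lemma rho_gg (v : V) : ρ gg v = v + opX ρ v := by
  rw [opX_apply, add_comm, add_assoc, add_self_zero, add_zero]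

lemma rho_hh (v : V) : ρ hh v = v + opY ρ v := by
  rw [opY_apply, add_comm, add_assoc, add_self_zero, add_zero]

lemma opX_opX (v : V) : opX ρ (opX ρ v) = 0 := by
  simp only [opX_apply, map_add]
  have : ρ gg (ρ gg v) = v := by
    rw [← Module.End.mul_apply, ← map_mul, gg_mul_gg, map_one]; rfl
  rw [this]
  have := add_self_zero (v + ρ gg v)
  rw [← this]; abel

lemma opY_opY (v : V) : opY ρ (opY ρ v) = 0 := by
  simp only [opY_apply, map_add]
  have : ρ hh (ρ hh v) = v := by
    rw [← Module.End.mul_apply, ← map_mul, hh_mul_hh, map_one]; rfl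
  rw [this]
  have := add_self_zero (v + ρ hh v)
  rw [← this]; abel

lemma opX_opY (v : V) : opX ρ (opY ρ v) = opY ρ (opX ρ v) := by
  simp only [opY_apply, opX_apply, map_add]
  have : ρ gg (ρ hh v) = ρ hh (ρ gg v) := by
    rw [← Module.End.mul_apply, ← Module.End.mul_apply, ← map_mul, ← map_mul, hh_mul_gg]
  rw [this]; abel

lemma intertwine_of (f : V →ₗ[K] V') (hx : ∀ v, f (ρ gg v) = ρ' gg (f v))
    (hy : ∀ v, f (ρ hh v) = ρ' hh (f v)) (s : G) : f ∘ₗ ρ s = ρ' s ∘ₗ f := by
  ext v
  rcases g_cases s with rfl | rfl | rfl | rfl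
  · simp
  · exact hx v
  · exact hy v
  · simp only [map_mul, LinearMap.coe_comp, Function.comp_apply, Module.End.mul_apply]
    rw [hx, hy]

lemma intertwine_of' (f : V →ₗ[K] V') (hx : ∀ v, f (opX ρ v) = opX ρ' (f v))
    (hy : ∀ v, f (opY ρ v) = opY ρ' (f v)) (s : G) : f ∘ₗ ρ s = ρ' s ∘ₗ f := by
  refine intertwine_of ρ ρ' f (fun v => ?_) (fun v => ?_) s
  · rw [rho_gg, rho_gg, map_add, hx]
  · rw [rho_hh, rho_hh, map_add, hy]

lemma norm_eq (v : V) : ρ.norm v = opX ρ (opY ρ v) := by
  have huniv : (Finset.univ : Finset G) = {1, gg, hh, gg * hh} := by decide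
  rw [Representation.norm, LinearMap.sum_apply, huniv]
  rw [Finset.sum_insert (by decide), Finset.sum_insert (by decide), Finset.sum_insert (by decide),
    Finset.sum_singleton]
  simp only [opX_apply, opY_apply, map_add, map_mul, map_one, Module.End.mul_apply,
    Module.End.one_apply]
  abel

end ops

end Pool.Agent.CoreDim
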