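import Pool.Agent.CoreDim.Free

set_option autoImplicit false
open CategoryTheory CategoryTheory.MonoidalCategory CategoryTheory.Limits

namespace Pool.Agent.CoreDim

/-- core dimension -/
noncomputable def cd (X : Rep.{0} K G) : ℤ :=
  (Module.finrank K X.V : ℤ) - 4 * (Module.finrank K (LinearMap.range X.ρ.norm) : ℤ)

/-- linear equivalence underlying an isomorphism -/
noncomputable def isoEquiv {X Y : Rep.{0} K G} (e : X ≅ Y) : X.V ≃ₗ[K] Y.V :=
  (Representation.equivOfIso e).toLinearEquiv

lemma fd_of_iso {X Y : Rep.{0} K G} (e : X ≅ Y) [FiniteDimensional K X.V] :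
    FiniteDimensional K Y.V := Module.Finite.equiv (isoEquiv e)

lemma cd_iso {X Y : Rep.{0} K G} (e : X ≅ Y) : cd X = cd Y := by
  have h1 := (isoEquiv e).finrank_eq
  have hcomm : ∀ v, Y.ρ.norm (isoEquiv e v) = isoEquiv e (X.ρ.norm v) := by
    intro v
    rw [norm_eq, norm_eq]
    change _ = e.hom.hom (opX X.ρ (opY X.ρ v))
    rw [map_opX, map_opY]
    rfl
  have h2 : Module.finrank K (LinearMap.range X.ρ.norm) =
      Module.finrank K (LinearMap.range Y.ρ.norm) := by
    have : (LinearMap.range X.ρ.norm).map (isoEquiv e).toLinearMap = LinearMap.range Y.ρ.norm := by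
      ext w
      constructor
      · rintro ⟨_, ⟨v, rfl⟩, rfl⟩
        exact ⟨isoEquiv e v, hcomm v⟩
      · rintro ⟨w, rfl⟩
        refine ⟨X.ρ.norm ((isoEquiv e).symm w), ⟨_, rfl⟩, ?_⟩
        have := hcomm ((isoEquiv e).symm w)
        rw [LinearEquiv.apply_symm_apply] at this
        exact this.symm
    rw [← this]
    exact (LinearEquiv.finrank_map_eq (isoEquiv e) _).symm
  rw [cd, cd, h1, h2]

/-- The biproduct is the product representation. -/
noncomputable def biprodIso (X Y : Rep.{0} K G) : X ⊞ Y ≅ Rep.of (X.ρ.prod Y.ρ) where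
  hom := Rep.ofHom (Representation.IntertwiningMap.prod (biprod.fst : X ⊞ Y ⟶ X).hom
    (biprod.snd : X ⊞ Y ⟶ Y).hom)
  inv := Rep.ofHom (.fst K X.ρ Y.ρ) ≫ biprod.inl + Rep.ofHom (.snd K X.ρ Y.ρ) ≫ biprod.inr
  hom_inv_id := by
    rw [Preadditive.comp_add]
    have h1 : Rep.ofHom (Representation.IntertwiningMap.prod (biprod.fst : X ⊞ Y ⟶ X).hom
        (biprod.snd : X ⊞ Y ⟶ Y).hom) ≫ Rep.ofHom (.fst K X.ρ Y.ρ) = biprod.fst := by
      ext v; rfl
    have h2 : Rep.ofHom (Representation.IntertwiningMap.prod (biprod.fst : X ⊞ Y ⟶ X).hom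
        (biprod.snd : X ⊞ Y ⟶ Y).hom) ≫ Rep.ofHom (.snd K X.ρ Y.ρ) = biprod.snd := by
      ext v; rfl
    rw [← Category.assoc, h1, ← Category.assoc, h2, biprod.total]
  inv_hom_id := by
    have h1 : biprod.inl ≫ Rep.ofHom (Representation.IntertwiningMap.prod
        (biprod.fst : X ⊞ Y ⟶ X).hom (biprod.snd : X ⊞ Y ⟶ Y).hom) =
        Rep.ofHom (.inl K X.ρ Y.ρ) := by
      apply Rep.hom_ext
      refine Representation.IntertwiningMap.ext (LinearMap.ext fun v => ?_)
      refine Prod.ext ?_ ?_
      · exact congrArg (fun f : X ⟶ X => f.hom v) (biprod.inl_fst (X := X) (Y := Y))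
      · exact congrArg (fun f : X ⟶ Y => f.hom v) (biprod.inl_snd (X := X) (Y := Y))
    have h2 : biprod.inr ≫ Rep.ofHom (Representation.IntertwiningMap.prod
        (biprod.fst : X ⊞ Y ⟶ X).hom (biprod.snd : X ⊞ Y ⟶ Y).hom) =
        Rep.ofHom (.inr K X.ρ Y.ρ) := by
      apply Rep.hom_ext
      refine Representation.IntertwiningMap.ext (LinearMap.ext fun v => ?_)
      refine Prod.ext ?_ ?_
      · exact congrArg (fun f : Y ⟶ X => f.hom v) (biprod.inr_fst (X := X) (Y := Y))
      · exact congrArg (fun f : Y ⟶ Y => f.hom v) (biprod.inr_snd (X := X) (Y := Y))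
    rw [Preadditive.add_comp, Category.assoc, Category.assoc, h1, h2]
    apply Rep.hom_ext
    refine Representation.IntertwiningMap.ext (LinearMap.ext fun v => ?_)
    refine Prod.ext ?_ ?_
    · simp [Rep.add_hom]
    · simp [Rep.add_hom]


lemma cd_prod (X Y : Rep.{0} K G) [FiniteDimensional K X.V] [FiniteDimensional K Y.V] :
    cd (Rep.of (X.ρ.prod Y.ρ)) = cd X + cd Y := by
  have h1 : Module.finrank K (X.V × Y.V) = Module.finrank K X.V + Module.finrank K Y.V :=
    Module.finrank_prod
  have hnorm : (X.ρ.prod Y.ρ).norm = LinearMap.prodMap X.ρ.norm Y.ρ.norm := by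
    refine LinearMap.ext fun v => ?_
    refine Prod.ext ?_ ?_
    · simp [Representation.norm, Prod.fst_sum]
    · simp [Representation.norm, Prod.snd_sum]
  have h2 : Module.finrank K (LinearMap.range (X.ρ.prod Y.ρ).norm) =
      Module.finrank K (LinearMap.range X.ρ.norm) + Module.finrank K (LinearMap.range Y.ρ.norm) := by
    rw [hnorm]
    have h3 : LinearMap.range (LinearMap.prodMap X.ρ.norm Y.ρ.norm) =
        LinearMap.range (LinearMap.prodMap (LinearMap.range X.ρ.norm).subtype
          (LinearMap.range Y.ρ.norm).subtype) := by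
      rw [LinearMap.range_prodMap, LinearMap.range_prodMap, Submodule.range_subtype,
        Submodule.range_subtype]
    rw [h3, ← Module.finrank_prod]
    refine LinearMap.finrank_range_of_inj ?_
    rintro ⟨a, b⟩ ⟨c, d⟩ hab
    simpa using hab
  simp only [cd]
  rw [h2]
  push_cast
  have h1' : (Module.finrank K (Rep.of (X.ρ.prod Y.ρ)).V : ℤ) = Module.finrank K X.V + Module.finrank K Y.V := by
    exact_mod_cast h1
  rw [h1']
  ring

lemma fd_biprod (X Y : Rep.{0} K G) [FiniteDimensional K X.V] [FiniteDimensional K Y.V] :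
    FiniteDimensional K (X ⊞ Y : Rep.{0} K G).V := by
  have : FiniteDimensional K (Rep.of (X.ρ.prod Y.ρ)).V :=
    inferInstanceAs (FiniteDimensional K (X.V × Y.V))
  exact fd_of_iso (biprodIso X Y).symm

lemma cd_biprod (X Y : Rep.{0} K G) [FiniteDimensional K X.V] [FiniteDimensional K Y.V] :
    cd (X ⊞ Y) = cd X + cd Y := by
  rw [cd_iso (biprodIso X Y), cd_prod]

lemma finrank_biprod (X Y : Rep.{0} K G) [FiniteDimensional K X.V] [FiniteDimensional K Y.V] :
    Module.finrank K (X ⊞ Y : Rep.{0} K G).V = Module.finrank K X.V + Module.finrank K Y.V := by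
  rw [(isoEquiv (biprodIso X Y)).finrank_eq]
  exact Module.finrank_prod

lemma fd_left {X Y Z : Rep.{0} K G} [FiniteDimensional K Z.V] (e : Z ≅ X ⊞ Y) :
    FiniteDimensional K X.V := by
  have : FiniteDimensional K (X.V × Y.V) := Module.Finite.equiv (isoEquiv (e ≪≫ biprodIso X Y))
  exact Module.Finite.of_surjective (LinearMap.fst K X.V Y.V) LinearMap.fst_surjective

lemma fd_right {X Y Z : Rep.{0} K G} [FiniteDimensional K Z.V] (e : Z ≅ X ⊞ Y) :
    FiniteDimensional K Y.V := by
  have : FiniteDimensional K (X.V × Y.V) := Module.Finite.equiv (isoEquiv (e ≪≫ biprodIso X Y))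
  exact Module.Finite.of_surjective (LinearMap.snd K X.V Y.V) LinearMap.snd_surjective

lemma cd_Fr (E : Type) [AddCommGroup E] [Module K E] [FiniteDimensional K E] :
    cd (Fr E) = 0 := by
  have h1 : Module.finrank K (Fr E).V = 4 * Module.finrank K E := by
    change Module.finrank K (E × E × E × E) = _
    rw [Module.finrank_prod, Module.finrank_prod, Module.finrank_prod]
    ring
  have h2 : Module.finrank K (LinearMap.range (Fr E).ρ.norm) = Module.finrank K E := by
    have : LinearMap.range (Fr E).ρ.norm = LinearMap.range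
        (LinearMap.inr K E (E × E × E) ∘ₗ LinearMap.inr K E (E × E) ∘ₗ LinearMap.inr K E E) := by
      ext v
      constructor
      · rintro ⟨w, rfl⟩
        refine ⟨w.1, ?_⟩
        rw [norm_eq]
        change _ = opX (frRep E) (opY (frRep E) w)
        rw [opX_fr, opY_fr]
        rfl
      · rintro ⟨w, rfl⟩
        refine ⟨(w, 0, 0, 0), ?_⟩
        rw [norm_eq]
        change opX (frRep E) (opY (frRep E) _) = _
        rw [opX_fr, opY_fr]
        rfl
    rw [this]
    refine LinearMap.finrank_range_of_inj ?_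
    intro a b hab
    simpa using hab
  rw [cd, h1, h2]; push_cast; ring


section retract
variable {E : Type} [AddCommGroup E] [Module K E]
variable {V : Type} [AddCommGroup V] [Module K V] (ρ : Representation K G V)

/-- the homomorphism into a free module determined by a linear map -/
def coLift (l : V →ₗ[K] E) : V →ₗ[K] (E × E × E × E) where
  toFun v := (l (opX ρ (opY ρ v)), l (opY ρ v), l (opX ρ v), l v)
  map_add' v w := by simp
  map_smul' c v := by simp

/-- the homomorphism into a free module determined by a linear map -/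
def coHom (l : V →ₗ[K] E) : ρ.IntertwiningMap (frRep E) := ⟨coLift ρ l, by
  refine intertwine_of' _ _ _ (fun v => ?_) (fun v => ?_)
  · rw [opX_fr]
    change (_, _, _, _) = _
    refine Prod.ext ?_ (Prod.ext ?_ (Prod.ext ?_ ?_))
    · change l (opX ρ (opY ρ (opX ρ v))) = 0
      rw [← opX_opY, opX_opX, map_zero]
    · change l (opY ρ (opX ρ v)) = l (opX ρ (opY ρ v))
      rw [opX_opY]
    · change l (opX ρ (opX ρ v)) = 0
      rw [opX_opX, map_zero]
    · rfl
  · rw [opY_fr]
    change (_, _, _, _) = _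
    refine Prod.ext ?_ (Prod.ext ?_ (Prod.ext ?_ ?_))
    · change l (opX ρ (opY ρ (opY ρ v))) = 0
      rw [opY_opY, map_zero, map_zero]
    · change l (opY ρ (opY ρ v)) = 0
      rw [opY_opY, map_zero]
    · rfl
    · rfl⟩

lemma coHom_apply (l : V →ₗ[K] E) (v : V) :
    coHom ρ l v = (l (opX ρ (opY ρ v)), l (opY ρ v), l (opX ρ v), l v) := rfl

end retract

lemma decomp (X : Rep.{0} K G) [FiniteDimensional K X.V] :
    ∃ (N P : Rep.{0} K G), Projective P ∧ Nonempty (X ≅ N ⊞ P) ∧
      (Module.finrank K N.V : ℤ) = cd X := by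
  let E := LinearMap.range X.ρ.norm
  obtain ⟨σ, hσ⟩ := X.ρ.norm.rangeRestrict.exists_rightInverse_of_surjective
    (LinearMap.range_rangeRestrict _)
  have hσ' : ∀ e : E, opX X.ρ (opY X.ρ (σ e)) = (e : X.V) := by
    intro e
    rw [← norm_eq]
    have := congrArg (fun F => ((F e : E) : X.V)) hσ
    exact this
  have hinj : Function.Injective (frLift X.ρ σ) := by
    rw [injective_iff_map_eq_zero]
    rintro ⟨a, b, c, d⟩ h
    rw [frLift_apply] at h
    have ha : a = 0 := by
      have h1 := congrArg (fun v => opX X.ρ (opY X.ρ v)) h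
      have e1 : opX X.ρ (opY X.ρ (opX X.ρ (σ b))) = 0 := by rw [← opX_opY, opX_opX]
      have e2 : opX X.ρ (opY X.ρ (opX X.ρ (opY X.ρ (σ d)))) = 0 := by rw [← opX_opY, opX_opX]
      simp only [map_add, opY_opY, map_zero, add_zero, e1, e2] at h1
      rw [hσ'] at h1
      simpa using h1
    subst ha
    rw [map_zero, zero_add] at h
    have hb : b = 0 := by
      have h1 := congrArg (fun v => opY X.ρ v) h
      have e1 : opY X.ρ (opX X.ρ (σ b)) = b := by rw [← opX_opY, hσ']
      have e2 : opY X.ρ (opX X.ρ (opY X.ρ (σ d))) = 0 := by rw [← opX_opY, opY_opY, map_zero]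
      simp only [map_add, opY_opY, map_zero, add_zero, e1, e2] at h1
      simpa using h1
    subst hb
    rw [map_zero, map_zero, zero_add] at h
    have hc : c = 0 := by
      have h1 := congrArg (fun v => opX X.ρ v) h
      simp only [map_add, opX_opX, map_zero, add_zero] at h1
      rw [hσ'] at h1
      simpa using h1
    subst hc
    rw [map_zero, map_zero, zero_add, hσ'] at h
    have hd : d = 0 := by simpa using h
    rw [hd]; rfl
  obtain ⟨r, hr⟩ := (frLift X.ρ σ).exists_leftInverse_of_injective (LinearMap.ker_eq_bot.2 hinj)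
  have hr' : ∀ p, r (frLift X.ρ σ p) = p := fun p => congrArg (fun F => F p) hr
  let l : X.V →ₗ[K] E := LinearMap.snd K E E ∘ₗ LinearMap.snd K E (E × E) ∘ₗ
    LinearMap.snd K E (E × E × E) ∘ₗ r
  have hl : ∀ a b c d, l (frLift X.ρ σ (a, b, c, d)) = d := by
    intro a b c d
    change (r (frLift X.ρ σ (a, b, c, d))).2.2.2 = d
    rw [hr']
  let φ : Fr E ⟶ X := Rep.ofHom (frHom X.ρ σ)
  let ψ : X ⟶ Fr E := Rep.ofHom (coHom X.ρ l)
  have hφψ : φ ≫ ψ = 𝟙 _ := by
    apply Rep.hom_ext
    have h1 : (φ ≫ ψ).hom = frHom (frRep E) (LinearMap.inl K E (E × E × E)) := by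
      apply frHom_ext
      intro e
      change coHom X.ρ l (frHom X.ρ σ (e, 0, 0, 0)) = (e, 0, 0, 0)
      rw [coHom_apply, frHom_apply]
      simp only [map_zero, add_zero]
      have e1 := hl 0 0 0 e
      have e2 := hl 0 0 e 0
      have e3 := hl 0 e 0 0
      have e4 := hl e 0 0 0
      simp only [frLift_apply, map_zero, add_zero, zero_add] at e1 e2 e3 e4
      rw [e1, e2, e3, e4]
    rw [h1]
    symm
    apply frHom_ext
    intro e
    rfl
  let S : ShortComplex (Rep.{0} K G) := ShortComplex.mk φ (cokernel.π φ) (cokernel.condition φ)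
  have hS : S.Exact := ShortComplex.exact_cokernel φ
  let sp : S.Splitting := ShortComplex.Splitting.ofExactOfRetraction S hS ψ hφψ
    (inferInstanceAs (Epi (cokernel.π φ)))
  have iso : X ≅ Fr E ⊞ cokernel φ := sp.isoBinaryBiproduct
  have iso' : X ≅ cokernel φ ⊞ Fr E := iso ≪≫ (biprod.braiding _ _)
  have f1 := fd_left iso'
  have f2 : FiniteDimensional K (Fr E).V := fd_right iso'
  refine ⟨cokernel φ, Fr E, inferInstance, ⟨iso'⟩, ?_⟩
  have h1 := (isoEquiv iso').finrank_eq
  rw [finrank_biprod] at h1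
  have h2 : Module.finrank K (Fr E).V = 4 * Module.finrank K E := by
    change Module.finrank K (E × E × E × E) = _
    rw [Module.finrank_prod, Module.finrank_prod, Module.finrank_prod]
    ring
  rw [h2] at h1
  rw [cd, h1]
  push_cast
  ring

end Pool.Agent.CoreDim
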