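import Pool.Agent.CoreDim.Basic

set_option autoImplicit false
open CategoryTheory CategoryTheory.MonoidalCategory CategoryTheory.Limits

namespace Pool.Agent.CoreDim

section mk
variable {V : Type} [AddCommGroup V] [Module K V]

lemma opX_mkRep (X Y : V →ₗ[K] V) (hX : ∀ v, X (X v) = 0) (hY : ∀ v, Y (Y v) = 0)
    (hXY : ∀ v, X (Y v) = Y (X v)) (v : V) :
    opX (mkRep X Y hX hY hXY) v = X v := by
  rw [opX_apply, mkRep_gg, add_comm, ← add_assoc, add_self_zero, zero_add]

lemma opY_mkRep (X Y : V →ₗ[K] V) (hX : ∀ v, X (X v) = 0) (hY : ∀ v, Y (Y v) = 0)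
    (hXY : ∀ v, X (Y v) = Y (X v)) (v : V) :
    opY (mkRep X Y hX hY hXY) v = Y v := by
  rw [opY_apply, mkRep_hh, add_comm, ← add_assoc, add_self_zero, zero_add]

end mk

section free
variable (E : Type) [AddCommGroup E] [Module K E]

/-- x on the free module -/
def frX : (E × E × E × E) →ₗ[K] (E × E × E × E) where
  toFun p := (0, p.1, 0, p.2.2.1)
  map_add' p q := by simp
  map_smul' c p := by simp

/-- y on the free module -/
def frY : (E × E × E × E) →ₗ[K] (E × E × E × E) where
  toFun p := (0, 0, p.1, p.2.1)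
  map_add' p q := by simp
  map_smul' c p := by simp

lemma frX_frX (v : E × E × E × E) : frX E (frX E v) = 0 := by simp [frX]
lemma frY_frY (v : E × E × E × E) : frY E (frY E v) = 0 := by simp [frY]
lemma frX_frY (v : E × E × E × E) : frX E (frY E v) = frY E (frX E v) := by simp [frX, frY]

/-- the free module on a vector space -/
def frRep : Representation K G (E × E × E × E) :=
  mkRep (frX E) (frY E) (frX_frX E) (frY_frY E) (frX_frY E)

lemma opX_fr (v : E × E × E × E) : opX (frRep E) v = (0, v.1, 0, v.2.2.1) :=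
  opX_mkRep _ _ _ _ _ _

lemma opY_fr (v : E × E × E × E) : opY (frRep E) v = (0, 0, v.1, v.2.1) :=
  opY_mkRep _ _ _ _ _ _

/-- the free module, bundled -/
noncomputable abbrev Fr : Rep K G := Rep.of (frRep E)

variable {E}
variable {V : Type} [AddCommGroup V] [Module K V] (ρ : Representation K G V)

/-- the homomorphism out of a free module determined by a linear map -/
def frLift (σ : E →ₗ[K] V) : (E × E × E × E) →ₗ[K] V where
  toFun p := σ p.1 + opX ρ (σ p.2.1) + opY ρ (σ p.2.2.1) + opX ρ (opY ρ (σ p.2.2.2))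
  map_add' p q := by
    simp only [Prod.fst_add, Prod.snd_add, map_add]; abel
  map_smul' c p := by
    simp only [Prod.smul_fst, Prod.smul_snd, map_smul, RingHom.id_apply, smul_add]

lemma frLift_apply (σ : E →ₗ[K] V) (a b c d : E) : frLift ρ σ (a, b, c, d) =
    σ a + opX ρ (σ b) + opY ρ (σ c) + opX ρ (opY ρ (σ d)) := rfl

lemma frLift_comm (σ : E →ₗ[K] V) (s : G) :
    frLift ρ σ ∘ₗ frRep E s = ρ s ∘ₗ frLift ρ σ := by
  refine intertwine_of' _ _ _ (fun v => ?_) (fun v => ?_) s
  · obtain ⟨a, b, c, d⟩ := v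
    rw [opX_fr, frLift_apply, frLift_apply]
    simp only [map_zero, map_add, opX_opX, zero_add, add_zero]
  · obtain ⟨a, b, c, d⟩ := v
    rw [opY_fr, frLift_apply, frLift_apply]
    simp only [map_zero, map_add, opY_opY, zero_add, add_zero, opX_opY]

/-- the intertwining map out of a free module determined by a linear map -/
def frHom (σ : E →ₗ[K] V) : (frRep E).IntertwiningMap ρ := ⟨frLift ρ σ, frLift_comm ρ σ⟩

lemma frHom_apply (σ : E →ₗ[K] V) (a b c d : E) : frHom ρ σ (a, b, c, d) =
    σ a + opX ρ (σ b) + opY ρ (σ c) + opX ρ (opY ρ (σ d)) := rfl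

lemma map_opX {V' : Type} [AddCommGroup V'] [Module K V'] {ρ' : Representation K G V'}
    (f : ρ.IntertwiningMap ρ') (v : V) : f (opX ρ v) = opX ρ' (f v) := by
  rw [opX_apply, opX_apply, map_add]
  congr 1
  exact congrArg (fun F => F v) (f.2 gg)

lemma map_opY {V' : Type} [AddCommGroup V'] [Module K V'] {ρ' : Representation K G V'}
    (f : ρ.IntertwiningMap ρ') (v : V) : f (opY ρ v) = opY ρ' (f v) := by
  rw [opY_apply, opY_apply, map_add]
  congr 1
  exact congrArg (fun F => F v) (f.2 hh)

lemma frRep_decomp (a b c d : E) : ((a, b, c, d) : E × E × E × E) =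
    (a, 0, 0, 0) + opX (frRep E) (b, 0, 0, 0) + opY (frRep E) (c, 0, 0, 0) +
      opX (frRep E) (opY (frRep E) (d, 0, 0, 0)) := by
  simp [opX_fr, opY_fr]

lemma frHom_ext (f : (frRep E).IntertwiningMap ρ) (σ : E →ₗ[K] V)
    (h : ∀ e, f (e, 0, 0, 0) = σ e) : f = frHom ρ σ := by
  refine Representation.IntertwiningMap.ext (LinearMap.ext fun v => ?_)
  obtain ⟨a, b, c, d⟩ := v
  change f (a, b, c, d) = frHom ρ σ (a, b, c, d)
  rw [frHom_apply, frRep_decomp, map_add, map_add, map_add, map_opX, map_opX, map_opY, map_opY,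
    h, h, h, h]

instance projective_Fr : Projective (Fr E) where
  factors {A B} f e := by
    intro he
    have hsurj := (Rep.epi_iff_surjective e).1 he
    obtain ⟨s, hs⟩ := e.hom.toLinearMap.exists_rightInverse_of_surjective
      (LinearMap.range_eq_top.2 hsurj)
    -- linear lift
    let ψ : E →ₗ[K] B := f.hom.toLinearMap ∘ₗ LinearMap.inl K E (E × E × E)
    let σ : E →ₗ[K] A := s ∘ₗ ψ
    refine ⟨Rep.ofHom (frHom A.ρ σ), ?_⟩
    apply Rep.hom_ext
    have h1 : f.hom = frHom B.ρ ψ := frHom_ext _ _ _ (fun e => rfl)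
    rw [h1]
    apply frHom_ext
    intro x
    change e.hom (frHom A.ρ σ (x, 0, 0, 0)) = _
    rw [frHom_apply]
    simp only [map_zero, add_zero]
    exact congrArg (fun F => F (ψ x)) hs

end free

end Pool.Agent.CoreDim
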