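import Pool.Agent.CoreDim.Stable

set_option autoImplicit false
open CategoryTheory CategoryTheory.MonoidalCategory CategoryTheory.Limits

namespace Pool.Agent.CoreDim

lemma shortExact_of {X Y Z : Rep.{0} K G} (f : X ⟶ Y) (g : Y ⟶ Z) (w : f ≫ g = 0)
    (hf : Function.Injective f.hom) (hg : Function.Surjective g.hom)
    (hex : ∀ y, g.hom y = 0 → ∃ x, f.hom x = y) : (ShortComplex.mk f g w).ShortExact where
  exact := by
    rw [← ShortComplex.exact_map_iff_of_faithful _ (forget₂ (Rep.{0} K G) (ModuleCat K)),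
      ShortComplex.moduleCat_exact_iff]
    intro y hy
    exact hex y hy
  mono_f := (Rep.mono_iff_injective f).2 hf
  epi_g := (Rep.epi_iff_surjective g).2 hg

lemma tensor_shortExact (Y : Rep.{0} K G) {A B C : Rep.{0} K G} (f : A ⟶ B) (g : B ⟶ C)
    (w : f ≫ g = 0) (h : (ShortComplex.mk f g w).ShortExact) :
    ∃ w' : (Y ◁ f) ≫ (Y ◁ g) = 0, (ShortComplex.mk (Y ◁ f) (Y ◁ g) w').ShortExact := by
  have hmono := (Rep.mono_iff_injective f).1 h.mono_f
  have hepi := (Rep.epi_iff_surjective g).1 h.epi_g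
  have hexact : Function.Exact f.hom.toLinearMap g.hom.toLinearMap := by
    have h1 := h.exact
    rw [← ShortComplex.exact_map_iff_of_faithful _ (forget₂ (Rep.{0} K G) (ModuleCat K)),
      ShortComplex.moduleCat_exact_iff] at h1
    intro y
    constructor
    · intro hy
      exact h1 y hy
    · rintro ⟨x, rfl⟩
      exact congrArg (fun F : A ⟶ C => F.hom x) w
  have w' : (Y ◁ f) ≫ (Y ◁ g) = 0 := by
    rw [← MonoidalCategory.whiskerLeft_comp, w, MonoidalPreadditive.whiskerLeft_zero]
  refine ⟨w', shortExact_of _ _ w' ?_ ?_ ?_⟩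
  · exact Module.Flat.lTensor_preserves_injective_linearMap (M := Y.V) f.hom.toLinearMap hmono
  · exact LinearMap.lTensor_surjective Y.V hepi
  · intro y hy
    exact (lTensor_exact Y.V hexact hepi y).1 hy

lemma projective_tensor (Y P : Rep.{0} K G) [Projective P] : Projective (Y ⊗ P) where
  factors {A B} f e := by
    intro he
    let φ := (ihom.adjunction Y).homEquiv P B f
    have hepi : Epi ((ihom Y).map e) := by
      rw [Rep.epi_iff_surjective]
      intro ψ
      have hsurj := (Rep.epi_iff_surjective e).1 he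
      obtain ⟨s, hs⟩ := e.hom.toLinearMap.exists_rightInverse_of_surjective
        (LinearMap.range_eq_top.2 hsurj)
      let ψ' : Y.V →ₗ[K] B.V := ψ
      refine ⟨(s ∘ₗ ψ' : Y.V →ₗ[K] A.V), ?_⟩
      change e.hom.toLinearMap ∘ₗ (s ∘ₗ ψ') = ψ'
      rw [← LinearMap.comp_assoc, hs, LinearMap.id_comp]
    let χ := Projective.factorThru φ ((ihom Y).map e)
    refine ⟨((ihom.adjunction Y).homEquiv P A).symm χ, ?_⟩
    apply ((ihom.adjunction Y).homEquiv P B).injective
    rw [Adjunction.homEquiv_naturality_right, Equiv.apply_symm_apply]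
    exact Projective.factorThru_comp _ _


section kron
variable {E F : Type} [AddCommGroup E] [Module K E] [AddCommGroup F] [Module K F]

/-- the square-zero operator on `E × F` given by a linear map `E → F` -/
def kX (A : E →ₗ[K] F) : E × F →ₗ[K] E × F :=
  LinearMap.inr K E F ∘ₗ A ∘ₗ LinearMap.fst K E F

lemma kX_apply (A : E →ₗ[K] F) (v : E × F) : kX A v = (0, A v.1) := rfl

/-- the representation attached to a pair of linear maps `E → F` -/
def kronRep (A B : E →ₗ[K] F) : Representation K G (E × F) :=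
  mkRep (kX A) (kX B) (fun v => by simp [kX_apply]) (fun v => by simp [kX_apply])
    (fun v => by simp [kX_apply])

lemma opX_kron (A B : E →ₗ[K] F) (v : E × F) : opX (kronRep A B) v = (0, A v.1) :=
  opX_mkRep _ _ _ _ _ _

lemma opY_kron (A B : E →ₗ[K] F) (v : E × F) : opY (kronRep A B) v = (0, B v.1) :=
  opY_mkRep _ _ _ _ _ _

/-- bundled version of `kronRep` -/
noncomputable abbrev Kr (A B : E →ₗ[K] F) : Rep.{0} K G := Rep.of (kronRep A B)

lemma cd_Kr (A B : E →ₗ[K] F) [FiniteDimensional K E] [FiniteDimensional K F] :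
    cd (Kr A B) = Module.finrank K E + Module.finrank K F := by
  have h1 : LinearMap.range (Kr A B).ρ.norm = ⊥ := by
    rw [LinearMap.range_eq_bot]
    refine LinearMap.ext fun v => ?_
    rw [norm_eq]
    change opX (kronRep A B) (opY (kronRep A B) v) = 0
    rw [opX_kron, opY_kron]
    simp
  have h2 : Module.finrank K (Kr A B).V = Module.finrank K E + Module.finrank K F :=
    Module.finrank_prod
  rw [cd, h1, h2]
  simp

variable {E' : Type} [AddCommGroup E'] [Module K E']

/-- the map from the kernel -/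
def kiMap (A' B' : E' →ₗ[K] E) : E' × E →ₗ[K] E × E × E × E where
  toFun v := (0, B' v.1, A' v.1, v.2)
  map_add' v w := by simp
  map_smul' c v := by simp

/-- the map from the kernel, as an intertwining map -/
def kiHom (A' B' : E' →ₗ[K] E) : (kronRep A' B').IntertwiningMap (frRep E) :=
  ⟨kiMap A' B', by
    refine intertwine_of' _ _ _ (fun v => ?_) (fun v => ?_)
    · rw [opX_kron, opX_fr]
      simp [kiMap]
    · rw [opY_kron, opY_fr]
      simp [kiMap]⟩

/-- The basic exact sequences. -/
lemma kron_shortExact (A B : E →ₗ[K] F) (A' B' : E' →ₗ[K] E)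
    (h0 : ∀ w, A (B' w) + B (A' w) = 0)
    (hinj : ∀ w, A' w = 0 → B' w = 0 → w = 0)
    (hex : ∀ b c, A b + B c = 0 → ∃ w, B' w = b ∧ A' w = c)
    (hsurj : ∀ f, ∃ b c, A b + B c = f) :
    ∃ (i : Kr A' B' ⟶ Fr E) (p : Fr E ⟶ Kr A B) (w : i ≫ p = 0),
      (ShortComplex.mk i p w).ShortExact := by
  let i : Kr A' B' ⟶ Fr E := Rep.ofHom (kiHom A' B')
  let p : Fr E ⟶ Kr A B := Rep.ofHom (frHom (kronRep A B) (LinearMap.inl K E F))
  have hi : ∀ (w : E') (e : E), i.hom (w, e) = (0, B' w, A' w, e) := fun w e => rfl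
  have hp : ∀ a b c d : E, p.hom (a, b, c, d) = (a, A b + B c) := by
    intro a b c d
    change frHom (kronRep A B) (LinearMap.inl K E F) (a, b, c, d) = _
    rw [frHom_apply]
    simp [opX_kron, opY_kron]
  have w : i ≫ p = 0 := by
    apply Rep.hom_ext
    refine Representation.IntertwiningMap.ext (LinearMap.ext fun v => ?_)
    obtain ⟨w, e⟩ := v
    change p.hom (i.hom (w, e)) = 0
    rw [hi, hp, h0]
    rfl
  refine ⟨i, p, w, shortExact_of i p w ?_ ?_ ?_⟩
  · rw [injective_iff_map_eq_zero]
    rintro ⟨w, e⟩ h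
    rw [hi] at h
    have h1 : B' w = 0 := congrArg (fun v : E × E × E × E => v.2.1) h
    have h2 : A' w = 0 := congrArg (fun v : E × E × E × E => v.2.2.1) h
    have h3 : e = 0 := congrArg (fun v : E × E × E × E => v.2.2.2) h
    rw [hinj w h2 h1, h3]
    rfl
  · rintro ⟨a, f⟩
    obtain ⟨b, c, h⟩ := hsurj f
    exact ⟨(a, b, c, 0), by rw [hp, h]⟩
  · rintro ⟨a, b, c, d⟩ h
    rw [hp] at h
    have h1 : a = 0 := congrArg (fun v : E × F => v.1) h
    have h2 : A b + B c = 0 := congrArg (fun v : E × F => v.2) h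
    obtain ⟨w, hb, hc⟩ := hex b c h2
    exact ⟨(w, d), by rw [hi, hb, hc, h1]⟩

end kron

/-- restriction to the first coordinates -/
def aPos (m : ℕ) : (Fin (m + 1) → K) →ₗ[K] (Fin m → K) where
  toFun u i := u i.castSucc
  map_add' u v := by ext i; simp
  map_smul' c v := by ext i; simp

/-- restriction to the last coordinates -/
def bPos (m : ℕ) : (Fin (m + 1) → K) →ₗ[K] (Fin m → K) where
  toFun u i := u i.succ
  map_add' u v := by ext i; simp
  map_smul' c v := by ext i; simp

/-- extension by zero at the end -/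
def aNeg (m : ℕ) : (Fin m → K) →ₗ[K] (Fin (m + 1) → K) where
  toFun u := Fin.snoc u 0
  map_add' u v := by
    ext i
    refine Fin.lastCases ?_ (fun j => ?_) i
    · simp
    · simp
  map_smul' c v := by
    ext i
    refine Fin.lastCases ?_ (fun j => ?_) i
    · simp
    · simp

/-- extension by zero at the beginning -/
def bNeg (m : ℕ) : (Fin m → K) →ₗ[K] (Fin (m + 1) → K) where
  toFun u := Fin.cons 0 u
  map_add' u v := by
    ext i
    refine Fin.cases ?_ (fun j => ?_) i
    · simp
    · simp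
  map_smul' c v := by
    ext i
    refine Fin.cases ?_ (fun j => ?_) i
    · simp
    · simp

lemma ses_pos (m : ℕ) : ∃ (i : Kr (aPos (m + 1)) (bPos (m + 1)) ⟶ Fr (Fin (m + 1) → K))
    (p : Fr (Fin (m + 1) → K) ⟶ Kr (aPos m) (bPos m)) (w : i ≫ p = 0),
      (ShortComplex.mk i p w).ShortExact := by
  refine kron_shortExact _ _ _ _ ?_ ?_ ?_ ?_
  · intro w
    ext i
    change w i.castSucc.succ + w i.succ.castSucc = 0
    rw [Fin.succ_castSucc]
    exact add_self_zero _
  · intro w h1 h2
    ext i
    refine Fin.cases ?_ (fun j => ?_) i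
    · exact congrFun h1 0
    · exact congrFun h2 j
  · intro b c h
    refine ⟨Fin.cons (c 0) b, ?_, ?_⟩
    · ext j
      simp [bPos]
    · ext j
      change (Fin.cons (c 0) b : Fin (m + 2) → K) j.castSucc = c j
      refine Fin.cases ?_ (fun j => ?_) j
      · simp
      · rw [← Fin.succ_castSucc, Fin.cons_succ]
        have := congrFun h j
        change b j.castSucc + c j.succ = 0 at this
        rw [← sub_eq_zero, sub_eq_add_neg, neg_eq (V := K)]
        exact this
  · intro f
    refine ⟨Fin.snoc f 0, 0, ?_⟩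
    ext j
    simp [aPos]

lemma ses_neg (m : ℕ) : ∃ (i : Kr (aNeg m) (bNeg m) ⟶ Fr (Fin (m + 1) → K))
    (p : Fr (Fin (m + 1) → K) ⟶ Kr (aNeg (m + 1)) (bNeg (m + 1))) (w : i ≫ p = 0),
      (ShortComplex.mk i p w).ShortExact := by
  refine kron_shortExact _ _ _ _ ?_ ?_ ?_ ?_
  · intro w
    have : (Fin.snoc (Fin.cons 0 w : Fin (m + 1) → K) 0 : Fin (m + 2) → K) =
        Fin.cons 0 (Fin.snoc w 0 : Fin (m + 1) → K) := by
      rw [Fin.cons_snoc_eq_snoc_cons]
    change (Fin.snoc (Fin.cons 0 w : Fin (m + 1) → K) 0 : Fin (m + 2) → K) +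
      Fin.cons 0 (Fin.snoc w 0 : Fin (m + 1) → K) = 0
    rw [this]
    exact add_self_zero _
  · intro w h1 h2
    ext i
    have := congrFun h2 i.succ
    simpa [bNeg] using this
  · intro b c h
    have hb0 : b 0 = 0 := by
      have := congrFun h 0
      change (Fin.snoc b 0 : Fin (m + 2) → K) (Fin.castSucc 0) +
        (Fin.cons 0 c : Fin (m + 2) → K) 0 = 0 at this
      rw [Fin.snoc_castSucc, Fin.cons_zero, add_zero] at this
      exact this
    have hcl : c (Fin.last m) = 0 := by
      have := congrFun h (Fin.last (m + 1))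
      change (Fin.snoc b 0 : Fin (m + 2) → K) (Fin.last (m + 1)) +
        (Fin.cons 0 c : Fin (m + 2) → K) (Fin.last m).succ = 0 at this
      rw [Fin.snoc_last, Fin.cons_succ, zero_add] at this
      exact this
    have hbc : ∀ j : Fin m, b j.succ = c j.castSucc := by
      intro j
      have := congrFun h j.castSucc.succ
      change (Fin.snoc b 0 : Fin (m + 2) → K) j.castSucc.succ +
        (Fin.cons 0 c : Fin (m + 2) → K) j.castSucc.succ = 0 at this
      rw [Fin.cons_succ, Fin.succ_castSucc, Fin.snoc_castSucc] at this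
      rw [← sub_eq_zero, sub_eq_add_neg, neg_eq (V := K)]
      exact this
    refine ⟨fun j => b j.succ, ?_, ?_⟩
    · ext j
      change (Fin.cons 0 (fun j => b j.succ) : Fin (m + 1) → K) j = b j
      refine Fin.cases ?_ (fun j => ?_) j
      · rw [Fin.cons_zero, hb0]
      · rw [Fin.cons_succ]
    · ext j
      change (Fin.snoc (fun j : Fin m => b j.succ) 0 : Fin (m + 1) → K) j = c j
      refine Fin.lastCases ?_ (fun j => ?_) j
      · rw [Fin.snoc_last, hcl]
      · rw [Fin.snoc_castSucc, hbc]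
  · intro f
    refine ⟨fun j => f j.castSucc, Pi.single (Fin.last m) (f (Fin.last (m + 1))), ?_⟩
    ext j
    change (Fin.snoc (fun j : Fin (m + 1) => f j.castSucc) 0 : Fin (m + 2) → K) j +
      (Fin.cons 0 (Pi.single (Fin.last m) (f (Fin.last (m + 1)))) : Fin (m + 2) → K) j = f j
    refine Fin.lastCases ?_ (fun j => ?_) j
    · rw [Fin.snoc_last, ← Fin.succ_last, Fin.cons_succ, Pi.single_eq_same, zero_add]
    · rw [Fin.snoc_castSucc]
      refine add_eq_left.2 ?_
      refine Fin.cases ?_ (fun j => ?_) j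
      · simp
      · rw [← Fin.succ_castSucc, Fin.cons_succ, Pi.single_eq_of_ne]
        exact (Fin.castSucc_lt_last j).ne

end Pool.Agent.CoreDim
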