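import Pool.Agent.CoreDim.Kron

set_option autoImplicit false
open CategoryTheory CategoryTheory.MonoidalCategory CategoryTheory.Limits

namespace Pool.Agent.CoreDim

/-- stable isomorphism -/
def St (X Y : Rep.{0} K G) : Prop :=
  ∃ P Q : Rep.{0} K G, Projective P ∧ Projective Q ∧ FiniteDimensional K P.V ∧
    FiniteDimensional K Q.V ∧ Nonempty (X ⊞ P ≅ Y ⊞ Q)

lemma fd_zero : FiniteDimensional K (Fr PUnit).V :=
  inferInstanceAs (FiniteDimensional K (PUnit × PUnit × PUnit × PUnit))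

lemma fd_tensor (X Y : Rep.{0} K G) [FiniteDimensional K X.V] [FiniteDimensional K Y.V] :
    FiniteDimensional K (X ⊗ Y : Rep.{0} K G).V :=
  inferInstanceAs (FiniteDimensional K (TensorProduct K X.V Y.V))

lemma St.of_iso {X Y : Rep.{0} K G} (e : X ≅ Y) : St X Y :=
  ⟨Fr PUnit, Fr PUnit, inferInstance, inferInstance, fd_zero, fd_zero,
    ⟨biprod.mapIso e (Iso.refl _)⟩⟩

lemma St.symm {X Y : Rep.{0} K G} (h : St X Y) : St Y X := by
  obtain ⟨P, Q, h1, h2, h3, h4, ⟨e⟩⟩ := h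
  exact ⟨Q, P, h2, h1, h4, h3, ⟨e.symm⟩⟩

/-- swapping the last two summands -/
noncomputable def swapIso (A B C : Rep.{0} K G) : (A ⊞ B) ⊞ C ≅ (A ⊞ C) ⊞ B :=
  biprod.associator A B C ≪≫ biprod.mapIso (Iso.refl A) (biprod.braiding B C) ≪≫
    (biprod.associator A C B).symm

lemma St.trans {X Y Z : Rep.{0} K G} (h : St X Y) (h' : St Y Z) : St X Z := by
  obtain ⟨P, Q, h1, h2, h3, h4, ⟨e⟩⟩ := h
  obtain ⟨R, S, h5, h6, h7, h8, ⟨f⟩⟩ := h'
  refine ⟨P ⊞ R, S ⊞ Q, inferInstance, inferInstance, fd_biprod _ _, fd_biprod _ _, ⟨?_⟩⟩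
  exact (biprod.associator X P R).symm ≪≫ biprod.mapIso e (Iso.refl R) ≪≫ swapIso Y Q R ≪≫
    biprod.mapIso f (Iso.refl Q) ≪≫ biprod.associator Z S Q

lemma St.cd_eq {X Y : Rep.{0} K G} [FiniteDimensional K X.V] [FiniteDimensional K Y.V]
    (h : St X Y) : cd X = cd Y := by
  obtain ⟨P, Q, h1, h2, h3, h4, ⟨e⟩⟩ := h
  have h := cd_iso e
  rw [cd_biprod, cd_biprod, cd_projective P, cd_projective Q] at h
  simpa using h

/-- tensor product distributes over biproducts, on the right -/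
noncomputable def distR (X Y Z : Rep.{0} K G) : (X ⊞ Y) ⊗ Z ≅ (X ⊗ Z) ⊞ (Y ⊗ Z) :=
  haveI := preservesBinaryBiproducts_of_preservesBiproducts (tensorRight Z)
  (tensorRight Z).mapBiprod X Y

/-- tensor product distributes over biproducts, on the left -/
noncomputable def distL (Z X Y : Rep.{0} K G) : Z ⊗ (X ⊞ Y) ≅ (Z ⊗ X) ⊞ (Z ⊗ Y) :=
  haveI := preservesBinaryBiproducts_of_preservesBiproducts (tensorLeft Z)
  (tensorLeft Z).mapBiprod X Y

lemma St.tensor_right {X Y : Rep.{0} K G} (h : St X Y) (Z : Rep.{0} K G)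
    [FiniteDimensional K Z.V] : St (X ⊗ Z) (Y ⊗ Z) := by
  obtain ⟨P, Q, h1, h2, h3, h4, ⟨e⟩⟩ := h
  have p1 : Projective (P ⊗ Z) := by
    have := projective_tensor Z P
    exact Projective.of_iso (β_ Z P) this
  have p2 : Projective (Q ⊗ Z) := by
    have := projective_tensor Z Q
    exact Projective.of_iso (β_ Z Q) this
  refine ⟨P ⊗ Z, Q ⊗ Z, p1, p2, fd_tensor _ _, fd_tensor _ _, ⟨?_⟩⟩
  exact (distR X P Z).symm ≪≫ (tensorRight Z).mapIso e ≪≫ distR Y Q Z

lemma ses_comp_iso {A B C C' : Rep.{0} K G} (f : A ⟶ B) (g : B ⟶ C) (w : f ≫ g = 0)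
    (h : (ShortComplex.mk f g w).ShortExact) (e : C ≅ C') :
    ∃ w' : f ≫ g ≫ e.hom = 0, (ShortComplex.mk f (g ≫ e.hom) w').ShortExact := by
  have w' : f ≫ g ≫ e.hom = 0 := by rw [← Category.assoc, w, zero_comp]
  refine ⟨w', ?_⟩
  exact ShortComplex.shortExact_of_iso
    (ShortComplex.isoMk (S₁ := ShortComplex.mk f g w) (S₂ := ShortComplex.mk f (g ≫ e.hom) w')
      (Iso.refl _) (Iso.refl _) e (by simp) (by simp)) h

lemma ses_iso_comp {A A' B C : Rep.{0} K G} (f : A ⟶ B) (g : B ⟶ C) (w : f ≫ g = 0)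
    (h : (ShortComplex.mk f g w).ShortExact) (e : A' ≅ A) :
    ∃ w' : (e.hom ≫ f) ≫ g = 0, (ShortComplex.mk (e.hom ≫ f) g w').ShortExact := by
  have w' : (e.hom ≫ f) ≫ g = 0 := by rw [Category.assoc, w, comp_zero]
  refine ⟨w', ?_⟩
  exact ShortComplex.shortExact_of_iso
    (ShortComplex.isoMk (S₁ := ShortComplex.mk f g w) (S₂ := ShortComplex.mk (e.hom ≫ f) g w')
      e.symm (Iso.refl _) (Iso.refl _) (by simp) (by simp)) h

/-- The syzygies of the trivial module. -/
noncomputable def W : ℤ → Rep.{0} K G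
  | Int.ofNat n => Kr (aPos n) (bPos n)
  | Int.negSucc n => Kr (aNeg (n + 1)) (bNeg (n + 1))

instance fd_W (m : ℤ) : FiniteDimensional K (W m).V := by
  cases m with
  | ofNat n => exact inferInstanceAs (FiniteDimensional K ((Fin (n + 1) → K) × (Fin n → K)))
  | negSucc n =>
    exact inferInstanceAs (FiniteDimensional K ((Fin (n + 1) → K) × (Fin (n + 2) → K)))

lemma cd_W (m : ℤ) : cd (W m) = 2 * |m| + 1 := by
  cases m with
  | ofNat n =>
    have h := cd_Kr (aPos n) (bPos n)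
    change cd (Kr (aPos n) (bPos n)) = _
    rw [h, Module.finrank_fin_fun, Module.finrank_fin_fun]
    simp
    ring
  | negSucc n =>
    have h := cd_Kr (aNeg (n + 1)) (bNeg (n + 1))
    change cd (Kr (aNeg (n + 1)) (bNeg (n + 1))) = _
    rw [h, Module.finrank_fin_fun, Module.finrank_fin_fun]
    have : |Int.negSucc n| = n + 1 := by
      rw [Int.negSucc_eq, abs_neg]
      exact abs_of_nonneg (by positivity)
    rw [this]
    push_cast
    ring

lemma opX_triv (v : K) : opX (Representation.trivial K G K) v = 0 := add_self_zero v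
lemma opY_triv (v : K) : opY (Representation.trivial K G K) v = 0 := add_self_zero v

/-- the one-dimensional space as a product, first version -/
def unitEquiv : K ≃ₗ[K] (Fin 1 → K) × (Fin 0 → K) where
  toFun := fun c => (fun _ => c, fun i => i.elim0)
  map_add' := fun a b => Prod.ext rfl (funext fun i => i.elim0)
  map_smul' := fun a b => Prod.ext rfl (funext fun i => i.elim0)
  invFun := fun v => v.1 0
  left_inv := fun c => rfl
  right_inv := fun v => Prod.ext (funext fun i => by rw [Fin.fin_one_eq_zero i])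
    (funext fun i => i.elim0)

/-- the one-dimensional space as a product, second version -/
def unitEquiv' : K ≃ₗ[K] (Fin 0 → K) × (Fin 1 → K) where
  toFun := fun c => (fun i => i.elim0, fun _ => c)
  map_add' := fun a b => Prod.ext (funext fun i => i.elim0) rfl
  map_smul' := fun a b => Prod.ext (funext fun i => i.elim0) rfl
  invFun := fun v => v.2 0
  left_inv := fun c => rfl
  right_inv := fun v => Prod.ext (funext fun i => i.elim0)
    (funext fun i => by rw [Fin.fin_one_eq_zero i])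

/-- the trivial module is `W 0` -/
noncomputable def unitIso : 𝟙_ (Rep.{0} K G) ≅ W 0 :=
  Rep.mkIso (ρ := Representation.trivial K G K) (σ := kronRep (aPos 0) (bPos 0))
    (Representation.Equiv.mk unitEquiv
      (by
        intro s
        refine intertwine_of' _ _ _ ?_ ?_ s
        · intro v
          rw [opX_kron, opX_triv, map_zero]
          exact Prod.ext rfl (funext fun i => i.elim0)
        · intro v
          rw [opY_kron, opY_triv, map_zero]
          exact Prod.ext rfl (funext fun i => i.elim0)))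

/-- the trivial module is the Kronecker module for `aNeg 0`, `bNeg 0` -/
noncomputable def unitIso' : 𝟙_ (Rep.{0} K G) ≅ Kr (aNeg 0) (bNeg 0) :=
  Rep.mkIso (ρ := Representation.trivial K G K) (σ := kronRep (aNeg 0) (bNeg 0))
    (Representation.Equiv.mk unitEquiv'
      (by
        intro s
        refine intertwine_of' _ _ _ ?_ ?_ s
        · intro v
          rw [opX_kron, opX_triv, map_zero]
          have : (unitEquiv' v).1 = 0 := funext fun i => i.elim0
          change 0 = ((0, aNeg 0 (unitEquiv' v).1) : (Fin 0 → K) × (Fin 1 → K))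
          rw [this, map_zero]
          rfl
        · intro v
          rw [opY_kron, opY_triv, map_zero]
          have : (unitEquiv' v).1 = 0 := funext fun i => i.elim0
          change 0 = ((0, bNeg 0 (unitEquiv' v).1) : (Fin 0 → K) × (Fin 1 → K))
          rw [this, map_zero]
          rfl))

lemma ses_W (m : ℤ) : ∃ (n : ℕ) (i : W (m + 1) ⟶ Fr (Fin (n + 1) → K))
    (p : Fr (Fin (n + 1) → K) ⟶ W m) (w : i ≫ p = 0), (ShortComplex.mk i p w).ShortExact := by
  cases m with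
  | ofNat n =>
    obtain ⟨i, p, w, h⟩ := ses_pos n
    exact ⟨n, i, p, w, h⟩
  | negSucc n =>
    cases n with
    | zero =>
      obtain ⟨i, p, w, h⟩ := ses_neg 0
      obtain ⟨w', h'⟩ := ses_iso_comp i p w h (unitIso.symm ≪≫ unitIso')
      exact ⟨0, _, p, w', h'⟩
    | succ k =>
      obtain ⟨i, p, w, h⟩ := ses_neg (k + 1)
      exact ⟨k + 1, i, p, w, h⟩

lemma fd_Fr (n : ℕ) : FiniteDimensional K (Fr (Fin n → K)).V :=
  inferInstanceAs (FiniteDimensional K
    ((Fin n → K) × (Fin n → K) × (Fin n → K) × (Fin n → K)))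

/-- `W m ⊗ W 1` is stably isomorphic to `W (m + 1)`. -/
lemma W_tensor (m : ℤ) : St (W m ⊗ W 1) (W (m + 1)) := by
  obtain ⟨n, i, p, w, h⟩ := ses_W m
  obtain ⟨n', i', p', w', h'⟩ := ses_W 0
  obtain ⟨w1, h1⟩ := tensor_shortExact (W m) i' p' w' h'
  obtain ⟨w2, h2⟩ := ses_comp_iso _ _ w1 h1
    ((tensorLeft (W m)).mapIso unitIso.symm ≪≫ (ρ_ (W m)))
  have hp : Projective (W m ⊗ Fr (Fin (n' + 1) → K)) := projective_tensor _ _
  obtain ⟨e⟩ := schanuel _ _ w2 h2 i p w h
  have f1 := fd_Fr (n + 1)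
  have f2 := fd_Fr (n' + 1)
  exact ⟨_, _, inferInstance, hp, f1, fd_tensor _ _, ⟨e⟩⟩

lemma tensor_U {X : Rep.{0} K G} {m : ℤ} (h : St X (W m)) : St (X ⊗ W 1) (W (m + 1)) :=
  (h.tensor_right (W 1)).trans (W_tensor m)

lemma tensor_U' {X : Rep.{0} K G} {m : ℤ} (h : St X (W m)) : St (X ⊗ W (-1)) (W (m - 1)) := by
  -- `W m` is stably `W (m-1) ⊗ W 1`
  have h1 : St (W (m - 1) ⊗ W 1) (W m) := by
    have := W_tensor (m - 1)
    rwa [sub_add_cancel] at this
  have h2 : St (X ⊗ W (-1)) ((W (m - 1) ⊗ W 1) ⊗ W (-1)) := (h.trans h1.symm).tensor_right _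
  have h3 : St ((W (m - 1) ⊗ W 1) ⊗ W (-1)) (W (m - 1) ⊗ (W 1 ⊗ W (-1))) :=
    St.of_iso (α_ _ _ _)
  have h4 : St (W 1 ⊗ W (-1)) (𝟙_ (Rep.{0} K G)) := by
    have e1 : St (W 1 ⊗ W (-1)) (W (-1) ⊗ W 1) := St.of_iso (β_ _ _)
    have e2 : St (W (-1) ⊗ W 1) (W 0) := W_tensor (-1)
    exact (e1.trans e2).trans (St.of_iso unitIso.symm)
  have h5 : St (W (m - 1) ⊗ (W 1 ⊗ W (-1))) (W (m - 1)) := by
    have e1 : St (W (m - 1) ⊗ (W 1 ⊗ W (-1))) ((W 1 ⊗ W (-1)) ⊗ W (m - 1)) :=
      St.of_iso (β_ _ _)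
    have e2 : St ((W 1 ⊗ W (-1)) ⊗ W (m - 1)) (𝟙_ (Rep.{0} K G) ⊗ W (m - 1)) :=
      h4.tensor_right _
    exact (e1.trans e2).trans (St.of_iso (λ_ _))
  exact (h2.trans h3).trans h5

/-- The module of the counterexample. -/
noncomputable def M : Rep.{0} K G := W 1 ⊞ W (-1)

instance fd_M : FiniteDimensional K M.V := fd_biprod _ _

/-- tensoring with `M` -/
noncomputable def T (X : Rep.{0} K G) : Rep.{0} K G := X ⊗ M

lemma fd_T {X : Rep.{0} K G} (h : FiniteDimensional K X.V) : FiniteDimensional K (T X).V :=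
  fd_tensor X M

lemma fd_T_iter {X : Rep.{0} K G} (h : FiniteDimensional K X.V) (n : ℕ) :
    FiniteDimensional K (T^[n] X).V := by
  induction n generalizing X with
  | zero => exact h
  | succ n ih => exact ih (fd_T h)

/-- `T` preserves isomorphisms -/
noncomputable def TIso {X Y : Rep.{0} K G} (e : X ≅ Y) : T X ≅ T Y :=
  (tensorRight M).mapIso e

lemma T_iter_iso {X Y : Rep.{0} K G} (e : X ≅ Y) (n : ℕ) : Nonempty (T^[n] X ≅ T^[n] Y) := by
  induction n generalizing X Y with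
  | zero => exact ⟨e⟩
  | succ n ih => exact ih (TIso e)

lemma T_iter_biprod (X Y : Rep.{0} K G) (n : ℕ) :
    Nonempty (T^[n] (X ⊞ Y) ≅ T^[n] X ⊞ T^[n] Y) := by
  induction n generalizing X Y with
  | zero => exact ⟨Iso.refl _⟩
  | succ n ih =>
    obtain ⟨e1⟩ := T_iter_iso (distR X Y M) n
    obtain ⟨e2⟩ := ih (X ⊗ M) (Y ⊗ M)
    exact ⟨e1 ≪≫ e2⟩

/-- the core dimensions, as a two-variable recursion -/
def hfun : ℕ → ℤ → ℤ
  | 0, m => 2 * |m| + 1
  | (n + 1), m => hfun n (m + 1) + hfun n (m - 1)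

lemma cd_T_iter (n : ℕ) (m : ℤ) (X : Rep.{0} K G) (hX : FiniteDimensional K X.V)
    (h : St X (W m)) : cd (T^[n] X) = hfun n m := by
  induction n generalizing m X with
  | zero =>
    rw [hfun, ← cd_W]
    exact h.cd_eq
  | succ n ih =>
    have f1 : FiniteDimensional K (X ⊗ W 1 : Rep.{0} K G).V := fd_tensor _ _
    have f2 : FiniteDimensional K (X ⊗ W (-1) : Rep.{0} K G).V := fd_tensor _ _
    have f3 := fd_T_iter f1 n
    have f4 := fd_T_iter f2 n
    obtain ⟨e1⟩ := T_iter_iso (distL X (W 1) (W (-1))) n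
    obtain ⟨e2⟩ := T_iter_biprod (X ⊗ W 1) (X ⊗ W (-1)) n
    rw [Function.iterate_succ_apply]
    have : cd (T^[n] (T X)) = cd (T^[n] (X ⊗ W 1) ⊞ T^[n] (X ⊗ W (-1))) :=
      cd_iso (e1 ≪≫ e2)
    rw [this, cd_biprod, ih (m + 1) _ f1 (tensor_U h), ih (m - 1) _ f2 (tensor_U' h), hfun]

/-- The core dimension of the `n`-th tensor power of `M`. -/
theorem core_dim (n : ℕ) :
    ((sInf {d : ℕ | ∃ N P' : Rep.{0} K G, Projective P' ∧
      Nonempty ((fun X : Rep.{0} K G => X ⊗ M)^[n] (𝟙_ (Rep.{0} K G)) ≅ N ⊞ P') ∧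
      Module.finrank K N.V = d} : ℕ) : ℤ) = hfun n 0 := by
  have hfd : FiniteDimensional K (𝟙_ (Rep.{0} K G)).V :=
    inferInstanceAs (FiniteDimensional K K)
  have f := fd_T_iter hfd n
  have h1 := sInf_eq (T^[n] (𝟙_ (Rep.{0} K G)))
  have h2 := cd_T_iter n 0 (𝟙_ (Rep.{0} K G)) hfd (St.of_iso unitIso)
  rw [← h2, ← h1]
  rfl

end Pool.Agent.CoreDim
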