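import Pool.Agent.CoreDim.Main

set_option autoImplicit false

namespace Pool.Agent.CoreDim

/-- counting function of closed walks -/
def zfun : ℕ → ℤ → ℤ
  | 0, m => if m = 0 then 1 else 0
  | (n + 1), m => zfun n (m + 1) + zfun n (m - 1)

lemma hfun_succ (n : ℕ) (m : ℤ) : hfun (n + 1) m = 2 * hfun n m + 4 * zfun n m := by
  induction n generalizing m with
  | zero =>
    simp only [hfun, zfun]
    rcases lt_trichotomy m 0 with h | h | h
    · rw [abs_of_neg h, abs_of_nonpos (by omega), abs_of_neg (by omega), if_neg h.ne]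
      ring
    · subst h; simp
    · rw [abs_of_pos h, abs_of_nonneg (by omega), abs_of_nonneg (by omega), if_neg h.ne']
      ring
  | succ n ih =>
    rw [hfun, ih, ih, zfun]
    have h1 : hfun (n + 1) m = hfun n (m + 1) + hfun n (m - 1) := rfl
    rw [h1]
    ring

lemma zfun_lt (n : ℕ) (m : ℤ) (h : m < -n) : zfun n m = 0 := by
  induction n generalizing m with
  | zero => rw [zfun, if_neg]; simp at h; omega
  | succ n ih =>
    rw [zfun, ih _ (by push_cast at h; omega), ih _ (by push_cast at h; omega), add_zero]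

lemma zfun_choose (n i : ℕ) : zfun n (2 * i - n) = n.choose i := by
  induction n generalizing i with
  | zero =>
    rw [zfun]
    rcases i with _ | i
    · simp
    · rw [if_neg (by push_cast; omega)]
      simp
  | succ n ih =>
    rw [zfun]
    rcases i with _ | i
    · have h1 : (2 * ((0 : ℕ) : ℤ) - ((n + 1 : ℕ) : ℤ) + 1) = 2 * ((0 : ℕ) : ℤ) - n := by
        push_cast; ring
      rw [h1, ih, zfun_lt _ _ (by push_cast; omega)]
      simp
    · have h1 : (2 * ((i + 1 : ℕ) : ℤ) - ((n + 1 : ℕ) : ℤ) + 1) = 2 * ((i + 1 : ℕ) : ℤ) - n := by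
        push_cast; ring
      have h2 : (2 * ((i + 1 : ℕ) : ℤ) - ((n + 1 : ℕ) : ℤ) - 1) = 2 * ((i : ℕ) : ℤ) - n := by
        push_cast; ring
      rw [h1, h2, ih, ih, Nat.choose_succ_succ]
      push_cast
      ring

lemma zfun_odd (n : ℕ) (m : ℤ) (h : (m + n) % 2 = 1) : zfun n m = 0 := by
  induction n generalizing m with
  | zero => rw [zfun, if_neg]; rintro rfl; simp at h
  | succ n ih =>
    rw [zfun, ih _ (by push_cast at h; omega), ih _ (by push_cast at h; omega), add_zero]

lemma zfun_rec (n : ℕ) : ((n : ℤ) + 2) * zfun (n + 2) 0 = 4 * (n + 1) * zfun n 0 := by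
  rcases Nat.even_or_odd' n with ⟨j, rfl | rfl⟩
  · have h1 : zfun (2 * j) 0 = (2 * j).choose j := by
      have := zfun_choose (2 * j) j
      simpa using this
    have h2 : zfun (2 * j + 2) 0 = (2 * j + 2).choose (j + 1) := by
      have := zfun_choose (2 * j + 2) (j + 1)
      rw [← this]
      congr 1
      push_cast
      ring
    have h3 := Nat.succ_mul_centralBinom_succ j
    rw [Nat.centralBinom_eq_two_mul_choose, Nat.centralBinom_eq_two_mul_choose] at h3
    have h4 : 2 * (j + 1) = 2 * j + 2 := by ring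
    rw [h4] at h3
    rw [h1, h2]
    have h5 : ((j + 1 : ℕ) : ℤ) * ((2 * j + 2).choose (j + 1) : ℤ) =
        2 * (2 * j + 1) * ((2 * j).choose j : ℤ) := by exact_mod_cast h3
    push_cast at h5 ⊢
    linear_combination 2 * h5
  · rw [zfun_odd _ _ (by push_cast; omega), zfun_odd _ _ (by push_cast; omega)]
    ring

open PowerSeries

/-- generating function of closed walks -/
noncomputable def Z : PowerSeries ℚ := PowerSeries.mk fun n => (zfun n 0 : ℚ)

/-- generating function of core dimensions -/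
noncomputable def F : PowerSeries ℚ := PowerSeries.mk fun n => (hfun n 0 : ℚ)

lemma F_eq : (1 - 2 * X) * F = 1 + 4 * X * Z := by
  ext n
  rw [sub_mul, one_mul, mul_assoc, mul_assoc]
  have h2 : (2 : PowerSeries ℚ) = PowerSeries.C 2 := (map_ofNat PowerSeries.C 2).symm
  have h4 : (4 : PowerSeries ℚ) = PowerSeries.C 4 := (map_ofNat PowerSeries.C 4).symm
  rw [h2, h4]
  rcases n with _ | n
  · simp [F, hfun]
  · simp only [map_sub, map_add, coeff_C_mul, coeff_succ_X_mul, F, Z, coeff_mk]
    rw [hfun_succ, coeff_one, if_neg (Nat.succ_ne_zero n)]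
    push_cast
    ring

lemma Z_deriv : (1 - 4 * X ^ 2) * PowerSeries.derivative ℚ Z = 4 * X * Z := by
  have h4 : (4 : PowerSeries ℚ) = PowerSeries.C 4 := (map_ofNat PowerSeries.C 4).symm
  ext n
  rw [sub_mul, one_mul, mul_assoc, mul_assoc, h4]
  simp only [map_sub, coeff_C_mul]
  rcases n with _ | n
  · rw [coeff_zero_X_mul]
    have : coeff 0 (X ^ 2 * PowerSeries.derivative ℚ Z) = 0 := by
      rw [pow_two, mul_assoc, coeff_zero_X_mul]
    rw [this]
    simp [PowerSeries.coeff_derivative, Z, zfun]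
  · rcases n with _ | n
    · have : coeff (0 + 1) (X ^ 2 * PowerSeries.derivative ℚ Z) = 0 := by
        rw [pow_two, mul_assoc, coeff_succ_X_mul, coeff_zero_X_mul]
      rw [this, coeff_succ_X_mul, PowerSeries.coeff_derivative, Z, coeff_mk, coeff_mk]
      have h := zfun_rec 0
      have h' : ((0 + 1 + 1 : ℕ) : ℤ) = 2 := by norm_num
      push_cast at h
      have hq : (2 : ℚ) * (zfun 2 0 : ℚ) = 4 * (zfun 0 0 : ℚ) := by
        have : ((0 + 2 : ℤ) * zfun (0 + 2) 0 : ℤ) = 4 * (0 + 1) * zfun 0 0 := h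
        have h2 := congrArg (fun z : ℤ => (z : ℚ)) this
        push_cast at h2
        linarith
      push_cast
      linarith
    · have : coeff (n + 1 + 1) (X ^ 2 * PowerSeries.derivative ℚ Z) =
          coeff n (PowerSeries.derivative ℚ Z) := by
        rw [pow_two, mul_assoc, coeff_succ_X_mul, coeff_succ_X_mul]
      rw [this, coeff_succ_X_mul, PowerSeries.coeff_derivative, PowerSeries.coeff_derivative, Z,
        coeff_mk, coeff_mk]
      have h := zfun_rec (n + 1)
      have h2 := congrArg (fun z : ℤ => (z : ℚ)) h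
      push_cast at h2 ⊢
      linarith

lemma Z_sq : Z ^ 2 * (1 - 4 * X ^ 2) = 1 := by
  have h4 : (4 : PowerSeries ℚ) = PowerSeries.C 4 := (map_ofNat PowerSeries.C 4).symm
  apply PowerSeries.derivative.ext
  · have h := Z_deriv
    have e1 : PowerSeries.derivative ℚ (Z ^ 2 * (1 - 4 * X ^ 2)) =
        2 * Z * ((1 - 4 * X ^ 2) * PowerSeries.derivative ℚ Z) - 8 * X * Z ^ 2 := by
      rw [h4]
      simp only [Derivation.leibniz, Derivation.leibniz_pow, map_sub, PowerSeries.derivative_C,
        PowerSeries.derivative_X, smul_eq_mul, nsmul_eq_mul, Derivation.map_one_eq_zero]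
      rw [← h4]
      push_cast
      ring
    rw [e1, h]
    have e2 : PowerSeries.derivative ℚ (1 : PowerSeries ℚ) = 0 := Derivation.map_one_eq_zero _
    rw [e2]
    ring
  · simp [Z, zfun]

lemma irrational (P Q : Polynomial ℚ) (h : (Q : PowerSeries ℚ) * F = (P : PowerSeries ℚ)) :
    Q = 0 := by
  have h1 : (Q : PowerSeries ℚ) * (1 + 4 * X * Z) = (1 - 2 * X) * (P : PowerSeries ℚ) := by
    rw [← F_eq, ← h]; ring
  have h2 : (4 * X * (Q : PowerSeries ℚ)) * Z =
      (1 - 2 * X) * (P : PowerSeries ℚ) - (Q : PowerSeries ℚ) := by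
    rw [← h1]; ring
  have h3 : (4 * X * (Q : PowerSeries ℚ)) ^ 2 =
      ((1 - 2 * X) * (P : PowerSeries ℚ) - (Q : PowerSeries ℚ)) ^ 2 * (1 - 4 * X ^ 2) := by
    rw [← h2]
    have := Z_sq
    calc (4 * X * (Q : PowerSeries ℚ)) ^ 2 = (4 * X * (Q : PowerSeries ℚ)) ^ 2 *
          (Z ^ 2 * (1 - 4 * X ^ 2)) := by rw [this, mul_one]
      _ = _ := by ring
  have h4 : (4 * Polynomial.X * Q) ^ 2 =
      ((1 - 2 * Polynomial.X) * P - Q) ^ 2 * (1 - 4 * Polynomial.X ^ 2) := by
    apply Polynomial.coe_injective (R := ℚ)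
    have c2 : ((2 : Polynomial ℚ) : PowerSeries ℚ) = 2 :=
      map_ofNat (Polynomial.coeToPowerSeries.ringHom (R := ℚ)) 2
    have c4 : ((4 : Polynomial ℚ) : PowerSeries ℚ) = 4 :=
      map_ofNat (Polynomial.coeToPowerSeries.ringHom (R := ℚ)) 4
    push_cast
    rw [c2, c4]
    exact h3
  by_contra hQ
  have hfin : {x : ℚ | Q.IsRoot x}.Finite := Polynomial.finite_setOfPred_isRoot hQ
  refine (Set.Ici_infinite (1 : ℚ)) (hfin.subset ?_)
  intro x hx
  have hx1 : (1 : ℚ) ≤ x := hx
  have h5 := congrArg (Polynomial.eval x) h4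
  simp only [Polynomial.eval_pow, Polynomial.eval_mul, Polynomial.eval_X, Polynomial.eval_sub,
    Polynomial.eval_one, Polynomial.eval_ofNat] at h5
  change Q.eval x = 0
  have h6 : (4 * x * Q.eval x) ^ 2 ≤ 0 := by
    rw [h5]
    apply mul_nonpos_of_nonneg_of_nonpos (sq_nonneg _)
    nlinarith
  have h7 : 4 * x * Q.eval x = 0 := by
    have := sq_nonneg (4 * x * Q.eval x)
    exact pow_eq_zero_iff (two_ne_zero) |>.1 (le_antisymm h6 this)
  rcases mul_eq_zero.1 h7 with h8 | h8
  · linarith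
  · exact h8

end Pool.Agent.CoreDim
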