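import Pool.Agent.CoreDim.Core

set_option autoImplicit false
open CategoryTheory CategoryTheory.MonoidalCategory CategoryTheory.Limits

namespace Pool.Agent.CoreDim

section schanuel
universe v u
variable {C : Type u} [Category.{v} C] [Abelian C]

/-- Half of Schanuel's lemma. -/
lemma schanuel_half {K₁ P Q Z : C} (i : K₁ ⟶ P) (p : P ⟶ Z) (q : Q ⟶ Z)
    (w : i ≫ p = 0) (hex : (ShortComplex.mk i p w).ShortExact) [Projective Q] :
    Nonempty (pullback p q ≅ K₁ ⊞ Q) := by
  have hp : Epi p := hex.epi_g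
  have hi : Mono i := hex.mono_f
  have hsnd : Epi (pullback.snd p q) := inferInstance
  let j : K₁ ⟶ pullback p q := pullback.lift i 0 (by rw [w, zero_comp])
  have hj1 : j ≫ pullback.fst p q = i := pullback.lift_fst _ _ _
  have hj2 : j ≫ pullback.snd p q = 0 := pullback.lift_snd _ _ _
  let T : ShortComplex C := ShortComplex.mk j (pullback.snd p q) hj2
  have hker : IsLimit (KernelFork.ofι i w) := hex.fIsKernel
  have hw : ∀ {W : C} (g : W ⟶ T.X₂) (_ : g ≫ T.g = 0), (g ≫ pullback.fst p q) ≫ p = 0 := by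
    intro W g hg
    rw [Category.assoc, pullback.condition, ← Category.assoc]
    change (g ≫ T.g) ≫ q = 0
    rw [hg, zero_comp]
  have hT : T.Exact := by
    refine ShortComplex.exact_of_f_is_kernel T ?_
    refine KernelFork.IsLimit.ofι _ _ (fun {W} g hg => hker.lift (KernelFork.ofι
      (g ≫ pullback.fst p q) (hw g hg))) ?_ ?_
    · intro W g hg
      apply pullback.hom_ext
      · change (_ ≫ j) ≫ _ = _
        rw [Category.assoc, hj1]
        exact hker.fac (KernelFork.ofι (g ≫ pullback.fst p q) (hw g hg)) WalkingParallelPair.zero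
      · change (_ ≫ j) ≫ _ = _
        rw [Category.assoc, hj2, comp_zero]
        exact hg.symm
    · intro W g hg m hm
      rw [← cancel_mono i]
      have h1 : hker.lift (KernelFork.ofι (g ≫ pullback.fst p q) (hw g hg)) ≫ i =
          g ≫ pullback.fst p q :=
        hker.fac (KernelFork.ofι (g ≫ pullback.fst p q) (hw g hg)) WalkingParallelPair.zero
      rw [h1, ← hm]
      change m ≫ i = (m ≫ j) ≫ _
      rw [Category.assoc, hj1]
  let sp : T.Splitting := ShortComplex.Splitting.ofExactOfSection T hT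
    (Projective.factorThru (𝟙 Q) (pullback.snd p q)) (Projective.factorThru_comp _ _)
    (by
      change Mono j
      have : Mono (j ≫ pullback.fst p q) := by rw [hj1]; exact hi
      exact mono_of_mono j (pullback.fst p q))
  exact ⟨sp.isoBinaryBiproduct⟩

lemma schanuel {K₁ K₂ P Q Z : C} (i : K₁ ⟶ P) (p : P ⟶ Z) (w : i ≫ p = 0)
    (hex : (ShortComplex.mk i p w).ShortExact)
    (j : K₂ ⟶ Q) (q : Q ⟶ Z) (w' : j ≫ q = 0)
    (hex' : (ShortComplex.mk j q w').ShortExact) [Projective P] [Projective Q] :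
    Nonempty (K₁ ⊞ Q ≅ K₂ ⊞ P) := by
  obtain ⟨e1⟩ := schanuel_half i p q w hex
  obtain ⟨e2⟩ := schanuel_half j q p w' hex'
  exact ⟨e1.symm ≪≫ pullbackSymmetry p q ≪≫ e2⟩

end schanuel

lemma cd_nonneg (X : Rep.{0} K G) [FiniteDimensional K X.V] : 0 ≤ cd X := by
  obtain ⟨N, P, _, _, h⟩ := decomp X
  rw [← h]; positivity

lemma cd_projective (P : Rep.{0} K G) [Projective P] [FiniteDimensional K P.V] : cd P = 0 := by
  let π : Fr P.V ⟶ P := Rep.ofHom (frHom P.ρ LinearMap.id)
  have hπ : Epi π := by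
    rw [Rep.epi_iff_surjective]
    intro v
    refine ⟨(v, 0, 0, 0), ?_⟩
    change frHom P.ρ LinearMap.id (v, 0, 0, 0) = v
    rw [frHom_apply]
    simp
  let S : ShortComplex (Rep.{0} K G) := ShortComplex.mk (kernel.ι π) π (kernel.condition π)
  have hS : S.Exact := ShortComplex.exact_kernel π
  let sp : S.Splitting := ShortComplex.Splitting.ofExactOfSection S hS
    (Projective.factorThru (𝟙 P) π) (Projective.factorThru_comp _ _)
    (inferInstanceAs (Mono (kernel.ι π)))
  have iso : Fr P.V ≅ kernel π ⊞ P := sp.isoBinaryBiproduct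
  have hfd : FiniteDimensional K (Fr P.V).V :=
    inferInstanceAs (FiniteDimensional K (P.V × P.V × P.V × P.V))
  have f1 := fd_left iso
  have h := cd_iso iso
  rw [cd_Fr, cd_biprod] at h
  have h1 := cd_nonneg (kernel π)
  have h2 := cd_nonneg P
  omega

lemma sInf_eq (X : Rep.{0} K G) [FiniteDimensional K X.V] :
    ((sInf {d : ℕ | ∃ N P' : Rep.{0} K G, Projective P' ∧ Nonempty (X ≅ N ⊞ P') ∧
      Module.finrank K N.V = d} : ℕ) : ℤ) = cd X := by
  obtain ⟨N, P, hP, hiso, h⟩ := decomp X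
  have hmem : (cd X).toNat ∈ {d : ℕ | ∃ N P' : Rep.{0} K G, Projective P' ∧
      Nonempty (X ≅ N ⊞ P') ∧ Module.finrank K N.V = d} :=
    ⟨N, P, hP, hiso, by rw [← h]; simp⟩
  have hle := Nat.sInf_le hmem
  have hge : (cd X).toNat ≤ sInf {d : ℕ | ∃ N P' : Rep.{0} K G, Projective P' ∧
      Nonempty (X ≅ N ⊞ P') ∧ Module.finrank K N.V = d} := by
    refine le_csInf ⟨_, hmem⟩ ?_
    rintro d ⟨N, P, hP, ⟨e⟩, rfl⟩
    have f1 := fd_left e
    have f2 := fd_right e
    have h1 := cd_iso e
    rw [cd_biprod, cd_projective P, add_zero] at h1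
    rw [h1, cd]
    omega
  have h0 := cd_nonneg X
  have : sInf {d : ℕ | ∃ N P' : Rep.{0} K G, Projective P' ∧
      Nonempty (X ≅ N ⊞ P') ∧ Module.finrank K N.V = d} = (cd X).toNat := le_antisymm hle hge
  rw [this]
  exact Int.toNat_of_nonneg h0

end Pool.Agent.CoreDim
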